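import Pool.Agent.W172.MK.Stm

/-! # Project MK, LAMAVG (helper797) -/

set_option autoImplicit false

namespace Pool.Agent.W797.MK

open Pool.Agent.W172.MK

theorem gen {n M : ℕ} (eps : Fin (M + 1) → V n → ℝ) (y : Fin (M + 1)) (D : V n → ℝ) (b : V n)
    (w : Fin (M + 1) → ℝ) :
    ∑ c, Lam (fun b' => eps y b' * eps c b') D b * w c =
      qq n / (qq n - 1) * ((∑ b', D b' * eps y b' * (∑ c, eps c b' * w c)) / qq n -
        D b * eps y b * (∑ c, eps c b * w c) / qq n) := by
  unfold Lam
  have h1 : ∑ c, (∑ b', D b' * (eps y b' * eps c b')) * w c =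
      ∑ b', D b' * eps y b' * (∑ c, eps c b' * w c) := by
    simp_rw [Finset.sum_mul, Finset.mul_sum]
    rw [Finset.sum_comm]
    refine Finset.sum_congr rfl (fun b' _ => Finset.sum_congr rfl (fun c _ => ?_))
    ring
  have h2 : ∑ c, (D b * (eps y b * eps c b)) * w c = D b * eps y b * (∑ c, eps c b * w c) := by
    rw [Finset.mul_sum]
    refine Finset.sum_congr rfl (fun c _ => ?_)
    ring
  rw [← h1, ← h2, Finset.sum_div, Finset.sum_div, ← Finset.sum_sub_distrib, Finset.mul_sum]
  refine Finset.sum_congr rfl (fun c _ => ?_)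
  ring

theorem lamavg : P_LAMAVG := by
  intro n M eps hG y D b
  constructor
  · have h := gen eps y D b (fun _ => 1)
    simp only [mul_one] at h
    rw [h]
    have h1 : ∀ b' : V n, ∑ c, eps c b' = 0 := hG.mean
    simp [h1]
  · rw [gen eps y D b (fun c => eps c b)]
    have h1 : ∀ b' ∈ (Finset.univ : Finset (V n)), b' ≠ b →
        D b' * eps y b' * (∑ c, eps c b' * eps c b) = 0 := by
      intro b' _ hb
      rw [hG.orth b' b hb, mul_zero]
    rw [Finset.sum_eq_single b h1 (fun h => absurd (Finset.mem_univ b) h), sub_self, mul_zero]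

end Pool.Agent.W797.MK
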